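import Pool.Agent.Run7.h406.G.Main

/-!
# Goncharov's complexes of `k(x)` for all infinite algebraic extensions `k` of `F_p`

Let `F` be a field such that every finite subset of `F` lies in a subfield isomorphic to `k(x)`,
where `k` is an infinite algebraic extension of a prime field `F_p` (`LocRational F`). Examples are
the fields `k(x)` themselves, and directed unions of such fields, for instance the perfect closure
of `k(x)` and the field `k(x, x^(1/2), x^(1/3), ...)`.

1. All the complexes `Γ(F,n) ⊗ ℚ`, `n ≥ 2`, are acyclic, as predicted by Goncharov's conjecture,
   since `K_m(F) ⊗ ℚ = 0` for `m ≥ 2`.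
2. The fields `k(x)` are of this kind.
3. For finite constant fields: let `n ≥ 2` (`n = m + 2`) and `E` be given. There is a number `q_0`
   such that for all finite fields `K` with at least `q_0` elements and all `s, v` in the subgroup
   of `F^*`, `F = K(x)`, generated by the polynomials of degree at most `E`, the element
   `s^(n-1) ⊗ v` lies in the span of all `f^(n-1) ⊗ (1 - f)`, `f ≠ 0, 1`, in
   `Sym^(n-1) F^* ⊗ F^* ⊗ ℚ`; this is stated in the dual form.

The starting files have 1. for `F = k(x)`, `k` algebraically closed (`AcyclicRatFunc`). The proof is
the contraction argument used there (`Pool/Agent/H39R2/Gon`), which compares a functional with its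
values on the relations `A + B + C = 0` between products of random linear polynomials over a large
finite field. If `k` is not algebraically closed the group `k(x)^*` has generators of degree
greater than one, which cannot be slots of a random relation; here prescribed irreducible factors
of bounded degree are inserted into, or left out of, the relations, and the alternating sum over
the subsets of inserted factors is taken. The reduction of acyclicity to the
statement on `Sym^(n-1) F^* ⊗ F^*`, and the functionals on `B_n(F)` (`EvS`), are from the starting
files (`H39R2.Gon.E2`, `TH358.GP`).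

The definitions are in `Pool/Agent/H39R2/GonP/Defs.lean` and `Pool/Agent/Run7/h406/G/Low.lean`,
`Pool/Agent/Run7/h406/G/Defs.lean`.
-/

set_option autoImplicit false

namespace Pool.Agent.Results.MP_9c6ec7_al.AcyclicInfiniteConstants

open GonP Pool.Agent.Run7.h406.G Polynomial

theorem result :
    -- the differentials of the complexes `Γ(F,n) ⊗ ℚ`, `n ≥ 2`, exist and are unique, and all these
    -- complexes are acyclic
    (∀ (F : Type) [Field F], LocRational F →
      ∃ D : Differentials F, (∀ D' : Differentials F, D' = D) ∧ D.Acyclic) ∧
    -- `F = k(x)`, `k` infinite and algebraic over `F_p`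
    (∀ (p : ℕ) [Fact p.Prime] (k : Type) [Field k] [Infinite k] [Algebra (ZMod p) k]
      [Algebra.IsAlgebraic (ZMod p) k], LocRational (RatFunc k)) ∧
    -- finite constant fields `K`, polynomials of degree at most `E`
    ∀ m E : ℕ, ∃ q0 : ℕ, ∀ (K : Type) [Field K] [Fintype K], q0 ≤ Fintype.card K →
      ∀ s v : UV (RatFunc K), s ∈ lowDeg K E → v ∈ lowDeg K E → InSpan (RatFunc K) m s v :=
  ⟨fun F _ h => acyclicP_loc F h, fun p _ k _ _ _ _ => locRational_ratFunc p k, finite_bound⟩

end Pool.Agent.Results.MP_9c6ec7_al.AcyclicInfiniteConstants
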