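import Mathlib
import Pool.Agent.Run7.h508.ZW.KT
import Pool.Agent.Run7.h508.ZW.Gau
import Pool.Agent.Run7.h508.ZW.BRep

/-!
# Degree one for the algebraic closure of a number field

Let `k` be a totally complex number field with algebraic closure `Ω`, and let `n ≥ 3`. The map of
Beilinson-Deligne and de Jeu goes from `H^1(Γ(Ω,n) ⊗ ℚ)` to `K_(2n-1)(Ω) ⊗ ℚ`, and the question in
degree one for the field `Ω` and its automorphisms predicts that both are isomorphic. The automorphisms
of `Ω` over `k` act on both sides.

* The map is injective if and only if `regKer n Ω`, the space of the classes in `H^1(Γ(Ω,n) ⊗ ℚ)` with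
  the polylogarithms `L_n(σ(z)) = 0` for all embeddings `σ`, is zero. We show that this holds if and
  only if `regKer n Ω` has no nonzero class fixed by all automorphisms over `k`, and it does not grow
  in the everywhere unramified Galois extensions `L/K` of prime degree, `K ⊇ k`, completely split above
  a given integer `m > 0` (every class which is fixed by `Aut(Ω/L)` is fixed by `Aut(Ω/K)`).
* The map is an isomorphism if and only if moreover there is no growth in these extensions for the
  functions on the embeddings which are not given by polylogarithms.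
* The spaces of the classes in `H^1(Γ(Ω,n) ⊗ ℚ)` which are fixed by `Aut(Ω/K)` are finite-dimensional
  for all number fields `K ⊇ k` if and only if this holds for `K = k`, and they grow by
  finite-dimensional spaces in these unramified extensions.
-/

set_option autoImplicit false
set_option linter.unusedSectionVars false

namespace Pool.Agent.Results.MP_9c6ec7_al.DegreeOneAlgebraicClosure

open GonP NumberField Pool.Agent.Q219.ZG Pool.Agent.Q219.ZN Pool.Agent.Run7.h508.ZW
  Pool.Agent.Run7.h508.BR

/-- All inertia groups of `L/K` are trivial, and the decomposition groups of the primes above `m`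
are trivial. -/
def UnramifiedSplit (m : ℕ) (K L : Type) [Field K] [Field L] [Algebra K L] : Prop :=
  ∀ P : Ideal (𝓞 L), P.IsMaximal → ∀ g : L ≃ₐ[K] L,
    ((∀ x y : 𝓞 L, (y : L) = g x → y - x ∈ P) → g = 1) ∧
    ((m : 𝓞 L) ∈ P → (∀ x y : 𝓞 L, (y : L) = g x → (y ∈ P ↔ x ∈ P)) → g = 1)

section cases

variable (k : Type) [Field k] [NumberField k] {Ω : Type} [Field Ω] [Algebra k Ω] {n : ℕ}

/-- The classes in the subspace `T` of `B_n(Ω) ⊗ ℚ` which are fixed by the automorphisms of `Ω` over
`k` which fix the image of `j : K → Ω`. -/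
noncomputable def fixedBy (hn : 2 ≤ n) (T : Submodule ℚ (BQ n Ω)) {K : Type} [Field K]
    [Algebra k K] (j : K →ₐ[k] Ω) : Submodule ℚ (BQ n Ω) := tfix (bRep Ω n hn) T j

/-- No growth in the everywhere unramified extensions `L/K` of prime degree, split above `m`. -/
def UnramifiedNoGrowth (hn : 2 ≤ n) (T : Submodule ℚ (BQ n Ω)) (m : ℕ) : Prop :=
  ∀ (K L : Type) [Field K] [NumberField K] [Field L] [NumberField L] [Algebra k K] [Algebra K L]
    [Algebra k L] [IsScalarTower k K L] [IsGalois K L], (Module.finrank K L).Prime →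
    UnramifiedSplit m K L → ∀ j : L →ₐ[k] Ω,
    fixedBy k hn T j ≤ fixedBy k hn T (j.comp (IsScalarTower.toAlgHom k K L))

/-- Finite-dimensional growth in the everywhere unramified extensions `L/K` of prime degree, split
above `m`. -/
def UnramifiedFiniteGrowth (hn : 2 ≤ n) (T : Submodule ℚ (BQ n Ω)) (m : ℕ) : Prop :=
  ∀ (K L : Type) [Field K] [NumberField K] [Field L] [NumberField L] [Algebra k K] [Algebra K L]
    [Algebra k L] [IsScalarTower k K L] [IsGalois K L], (Module.finrank K L).Prime →
    UnramifiedSplit m K L → ∀ j : L →ₐ[k] Ω, ∃ W : Submodule ℚ (BQ n Ω), W.FG ∧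
    fixedBy k hn T j ≤ fixedBy k hn T (j.comp (IsScalarTower.toAlgHom k K L)) ⊔ W

end cases

/-- No growth for the functions on the embeddings in the unramified case: every function on the
embeddings of `L` with the parity `(-1)^(n-1)` is the sum of a function which comes from `K` and of
a function which is given by polylogarithms over a finite extension of `L`. -/
def UnramifiedRegulators (n : ℕ) (hn : 3 ≤ n) (m : ℕ) : Prop :=
  ∀ (K L : Type) [Field K] [NumberField K] [Field L] [NumberField L] [Algebra K L] [IsGalois K L],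
    (∃ x : K, x ^ 2 = -1) → (Module.finrank K L).Prime → UnramifiedSplit m K L →
    Par n L ≤ (Par n K).map (pull (algebraMap K L)) ⊔ PVal n L hn

/-- The map of Beilinson-Deligne and de Jeu is surjective for the algebraic closure: all elements of
the groups `K_(2n-1)(F) ⊗ ℚ` of the number fields are given by polylogarithms over a finite
extension. -/
def SurjectiveOverClosure (T : KTheory) (n : ℕ) : Prop :=
  ∀ (F : Type) [Field F] [NumberField F] (x : T.K F), ∃ (L : Type) (_ : Field L)
    (_ : NumberField L) (f : F →+* L), IsPoly T n (T.map f x)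

section proof

lemma unrSplit_of {m : ℕ} {K L : Type} [Field K] [Field L] [Algebra K L]
    (h : UnrSplit m K L) : UnramifiedSplit m K L := by
  intro P hP g
  refine ⟨fun h1 => (h P hP).1 g fun x => h1 x _ rfl, fun hm h1 => (h P hP).2 hm g fun x =>
    h1 x _ rfl⟩

lemma surj_iff {T : KTheory} {n : ℕ} (hn : 3 ≤ n) (hT : T.IsKnown n) {m : ℕ} (hm : m ≠ 0) :
    SurjectiveOverClosure T n ↔ UnramifiedRegulators n hn m := by
  have hT' := hT.known' hn
  constructor
  · intro h K L _ _ _ _ _ _ _ _ _
    exact le_trans ((weak_iff hn L).mp (weak_of_potential hT' hn fun x => h L x)) le_sup_right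
  · intro h F _ _ x
    refine potential_of_weak hT' ?_ x
    rw [weak_iff hn]
    refine pot_all hn hm totallyComplex ((par_le hn).trans (Val_le_PVal hn G4)) ?_ F
    intro K L _ _ _ _ _ _ _ _ _ _ hp hu
    obtain ⟨x, hx, -⟩ := exists_sqrt
    exact h K L ⟨algebraMap G4 K x, by rw [← map_pow, hx, map_neg, map_one]⟩ hp (unrSplit_of hu)

variable {k : Type} [Field k] [NumberField k] {Ω : Type} [Field Ω] [Algebra k Ω]
  [IsAlgClosed Ω] [Algebra.IsAlgebraic k Ω] {n : ℕ}

lemma tNoGrow_of {hn : 2 ≤ n} {T : Submodule ℚ (BQ n Ω)} {m : ℕ}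
    (h : UnramifiedNoGrowth k hn T m) : TNoGrow (bRep (k := k) Ω n hn) T m :=
  fun K L _ _ _ _ _ _ _ _ _ _ hp hu j => h K L hp (unrSplit_of hu) j

lemma tFinGrow_of {hn : 2 ≤ n} {T : Submodule ℚ (BQ n Ω)} {m : ℕ}
    (h : UnramifiedFiniteGrowth k hn T m) : TFinGrow (bRep (k := k) Ω n hn) T m :=
  fun K L _ _ _ _ _ _ _ _ _ _ hp hu j => h K L hp (unrSplit_of hu) j

end proof

/-- **Main theorem.** Let `k` be a totally complex number field with algebraic closure `Ω`, let
`n ≥ 3` and `m > 0`.

* If the kernel of the polylogarithmic regulator in `H^1(Γ(Ω,n) ⊗ ℚ)` does not grow in the everywhere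
  unramified Galois extensions `L/K` of prime degree, `K ⊇ k`, split above `m`, then it does not
  grow in any extension.
* The regulator is injective on `H^1(Γ(Ω,n) ⊗ ℚ)` if and only if it is injective on the classes which
  are fixed by the automorphisms over `k`, and its kernel does not grow in these extensions.
* The map of Beilinson-Deligne and de Jeu from `H^1(Γ(Ω,n) ⊗ ℚ)` to `K_(2n-1)(Ω) ⊗ ℚ` is injective
  and surjective if and only if this holds, and there is no growth for the functions on the
  embeddings in the unramified case.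
* The spaces of the classes in `H^1(Γ(Ω,n) ⊗ ℚ)` fixed by `Aut(Ω/K)` are finite-dimensional for all
  number fields `K ⊇ k` if and only if this holds for `K = k` and the growth in the unramified
  extensions is finite-dimensional. -/
theorem result (k : Type) [Field k] [NumberField k] (hk : IsTotallyComplex k) (Ω : Type) [Field Ω]
    [Algebra k Ω] [IsAlgClosed Ω] [Algebra.IsAlgebraic k Ω] (n : ℕ) (hn : 3 ≤ n) (hn' : 2 ≤ n)
    (m : ℕ) (hm : m ≠ 0) :
    (UnramifiedNoGrowth k hn' (regKer n Ω) m → ∀ (K L : Type) [Field K] [NumberField K] [Field L]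
      [NumberField L] [Algebra k K] [Algebra k L] (f : K →ₐ[k] L) (j : L →ₐ[k] Ω),
      fixedBy k hn' (regKer n Ω) j = fixedBy k hn' (regKer n Ω) (j.comp f)) ∧
    (regKer n Ω = ⊥ ↔ fixedBy k hn' (regKer n Ω) (Algebra.ofId k Ω) = ⊥ ∧
      UnramifiedNoGrowth k hn' (regKer n Ω) m) ∧
    (∀ T : KTheory, T.IsKnown n → (regKer n Ω = ⊥ ∧ SurjectiveOverClosure T n ↔
      fixedBy k hn' (regKer n Ω) (Algebra.ofId k Ω) = ⊥ ∧
        UnramifiedNoGrowth k hn' (regKer n Ω) m ∧ UnramifiedRegulators n hn m)) ∧
    ((∀ (K : Type) [Field K] [NumberField K] [Algebra k K] (j : K →ₐ[k] Ω),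
        (fixedBy k hn' (H1 n Ω) j).FG) ↔
      (fixedBy k hn' (H1 n Ω) (Algebra.ofId k Ω)).FG ∧
        UnramifiedFiniteGrowth k hn' (H1 n Ω) m) := by
  have hcx : ∀ (K : Type) [Field K] [NumberField K] [Algebra k K], IsTotallyComplex K :=
    fun K _ _ _ => complex_above hk
  have hB : regKer n Ω = ⊥ ↔ fixedBy k hn' (regKer n Ω) (Algebra.ofId k Ω) = ⊥ ∧
      UnramifiedNoGrowth k hn' (regKer n Ω) m := by
    constructor
    · intro h
      have h1 : ∀ c ∈ regKer n Ω, c = 0 := by
        intro c hc
        rw [h] at hc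
        exact hc
      refine ⟨?_, fun K L _ _ _ _ _ _ _ _ _ _ _ j c hc => ?_⟩
      · rw [eq_bot_iff]
        intro c hc
        rw [h1 c hc.1]
        exact Submodule.zero_mem _
      · rw [h1 c hc.1]
        exact Submodule.zero_mem _
    · intro h
      exact t_vanish (bRep (k := k) Ω n hn') (regKer_stable Ω n hn) hm hk (bRep_disc hn') h.1
        (tNoGrow_of h.2)
  refine ⟨fun h K L _ _ _ _ _ _ f j => ?_, hB, fun T hT => ?_, ⟨fun h => ⟨?_, ?_⟩, ?_⟩⟩
  · exact t_noGrow (bRep (k := k) Ω n hn') (regKer_stable Ω n hn) hm (tNoGrow_of h) K L (hcx K) f j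
  · rw [surj_iff hn hT hm, hB, and_assoc]
  · exact h k (Algebra.ofId k Ω)
  · intro K L _ _ _ _ _ _ _ _ _ hp hu j
    exact ⟨fixedBy k hn' (H1 n Ω) j, h L j, le_sup_right⟩
  · intro h K _ _ _ j
    refine t_finite (bRep (k := k) Ω n hn') (H1_stable Ω n hn) hm (tFinGrow_of h.2) k K hk
      (Algebra.ofId k K) j ?_
    have h2 : j.comp (Algebra.ofId k K) = Algebra.ofId k Ω := Subsingleton.elim _ _
    rw [h2]
    exact h.1

end Pool.Agent.Results.MP_9c6ec7_al.DegreeOneAlgebraicClosure
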