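import Pool.Agent.Run7.h384.RF.Gon

/-!
# MP_9c6ec7_al: the degree `i = 1` of the question implies all degrees `i ≤ 0`

The complex `Γ(F, n)` has no terms in degrees `i ≤ 0`, so in these degrees the question asks for the
vanishing `gr_n K_(2n-i)(F) ⊗ ℚ = 0` (the Beilinson-Soulé conjecture). We prove that this part of the
question follows from its part in degree `1`, weight by weight: natural isomorphisms
`H^1(Γ(F, n) ⊗ ℚ) ≅ gr_n K_(2n-1)(F) ⊗ ℚ` for ONE weight `n ≥ 2` and all fields `F` imply
`gr_w K_(2w-i)(F) ⊗ ℚ = 0` for all fields `F`, all `i ≤ 0` and all weights `w ≥ 1` with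
`w - i = n - 1`. So Q1 holds as soon as there are natural isomorphisms in the degrees `1 ≤ i ≤ n`.

`Motivic k ℚ`: groups `H^i(F, n)` with the known properties of `gr_n K_(2n-i)(F) ⊗ ℚ` for the extension
fields `F` of `k`: functoriality, continuity, the exact sequences
`0 → H^(i+1)(K, n+1) → H^(i+1)(K(t), n+1) → ⨁_P H^i(K_P, n) → 0` and their compatibility with the
translations `t ↦ t + a`. The groups `B_n(F)`, `n = m + 2`, are Goncharov's groups (`GonP`), and
`H1 F m = H^1(Γ(F, n) ⊗ ℚ) ⊆ B_n(F) ⊗ ℚ`.

More generally, for every infinite field `K` every linear map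
`H^1(Γ(K(t), n) ⊗ ℚ) → gr_n K_(2n-1)(K(t)) ⊗ ℚ` which commutes with the translations `t ↦ t + a` has its
image in `gr_n K_(2n-1)(K) ⊗ ℚ`. Moreover, for a perfect field `k` and `K_d = k(t_1, …, t_d)`:

* if `K_d` is infinite, already an injective linear map `H^1(K_(d+1), n) → H^1(Γ(K_(d+1), n) ⊗ ℚ)`, or
  a surjective one in the other direction, which commutes with the translations of `t_(d+1)`, gives
  `H^0(F, n - 1) = 0` for all finitely generated fields `F` of transcendence degree at most `d` over `k`;
* the vanishing in the degrees `i ≤ 0` is equivalent to `H^1(K_d, n) = H^1(k, n)` for all `d`, to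
  the triviality of the action of the translations of `t_(d+1)` on `H^1(K_(d+1), n)`, and to: the
  space `H^1(K_(d+1), n) / H^1(k, n)` is generated by less than `|K_d|` elements (`d ≥ 1`), that is,
  for countable `k`, it is finite-dimensional.

Proof. By the definition of `R_n` the elements of `ker δ_n` over `K(t)` are constant modulo
`R_n(K(t))` (starting file `TH358/GP`), hence fixed by the translations. A translation moves the
residue at `P(t)` to the residue at `P(t + a)`, and a nonzero element of `⨁_P` is not fixed by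
infinitely many translations. So all residues of `H^1(K(t), n)` vanish, and every `H^0(K_P, n - 1)` is
a quotient of `H^1(K(t), n)` by the residue at `P`.
-/

set_option autoImplicit false

open Cardinal Pool.Agent.Run7.h384.RF

namespace Pool.Agent.Results.MP_9c6ec7_al.DegreeOneImpliesNonpositive

/-- **Theorem.** Let `n = m + 2`. (0) For an infinite extension field `K` of `k` a linear map
`H^1(Γ(K(t), n) ⊗ ℚ) → H^1(K(t), ℚ(n))` compatible with the translations `t ↦ t + a`, `a ∈ K`, has its image
in `H^1(K, ℚ(n))`. (1) Natural isomorphisms `H^1(Γ(F, n) ⊗ ℚ) ≅ H^1(F, ℚ(n))` for all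
extension fields `F` of `k` imply `H^i(F, ℚ(w)) = 0` for all these fields, all `i ≤ 0` and all `w ≥ 1` with
`w - i = n - 1`. (2) If `k` is perfect and `K_d` infinite, an injection of
`H^1(K_(d+1), ℚ(n))` in `H^1(Γ(K_(d+1), n) ⊗ ℚ)`, or a surjection in the other direction, compatible
with the translations of `t_(d+1)`, implies `H^0(F, ℚ(n-1)) = 0` for all finitely generated fields `F`
of transcendence degree at most `d` over `k`. (3) If `k` is
perfect, the vanishing in (1) is equivalent to each of: `H^1(k, ℚ(n)) = H^1(K_d, ℚ(n))` for all `d`; the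
translations of `t_(d+1)` act trivially on `H^1(K_(d+1), ℚ(n))` for all `d`; for all `x` in this group
infinitely many translates of `x` lie in a finite-dimensional space modulo `H^1(K_d, ℚ(n))`, `d ≥ 1`;
`H^1(K_(d+1), ℚ(n))` is generated by `H^1(k, ℚ(n))` and less than `|K_d|` elements, `d ≥ 1`. -/
theorem result (k : Type) [Field k] (A : Motivic k ℚ) (m : ℕ) :
    (∀ (K : Ext k) (s : HOne K.rat m →ₗ[ℚ] A.H 1 (m + 2) K.rat), Infinite K →
      (∀ a : K, Compatible A m (K.shiftRat a) s s) →
      ∀ u, ∃ y : A.H 1 (m + 2) K, A.map 1 (m + 2) K.toRat y = s u) ∧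
    (Nonempty (NaturalIso A m) → A.NonPositive (m + 1)) ∧
    (PerfectField k →
      (∀ d : ℕ, Infinite (Ext.tower k d) →
        Injects A m (Ext.tower k d) ∨ Surjects A m (Ext.tower k d) → A.Vanish 0 (m + 1) d) ∧
      List.TFAE [
        A.NonPositive (m + 1),
        ∀ d : ℕ, A.Rational 1 (m + 2) d,
        ∀ (d : ℕ) (a : Ext.tower k d), A.Fixes 1 (m + 2) (Ext.tower k d) a,
        ∀ d : ℕ, 1 ≤ d → A.FewTranslates 1 (m + 2) (Ext.tower k d),
        ∀ d : ℕ, 1 ≤ d → A.Small 1 (m + 2) (Ext.tower k (d + 1)) #(Ext.tower k d)]) :=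
  ⟨fun K s hK hs u => image_constant A m K s hs u, fun ⟨N⟩ => nonPositive_of_iso A m N, fun _ =>
    ⟨fun d hd h => vanish_tower A m d hd h, nonPositive_tfae A m⟩⟩

end Pool.Agent.Results.MP_9c6ec7_al.DegreeOneImpliesNonpositive
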