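import Pool.Agent.Run7.h360.GN.Main

/-!
# The cohomology of Goncharov's complexes in the degrees `n` and `n - 1`

Goncharov's conjecture predicts `H^n(Γ(F,n) ⊗ ℚ) = gr_n K_n(F) ⊗ ℚ` and
`H^{n-1}(Γ(F,n) ⊗ ℚ) = gr_n K_{n+1}(F) ⊗ ℚ`. For `F = ℚ` these groups vanish for `n ≥ 2`, and for
`F = k(x)`, `k` algebraic over `F_p` (for instance a finite field), all `K_m(F) ⊗ ℚ`, `m ≥ 2`,
vanish.

Theorem.
1. Let `F = ℚ`. Then `H^n(Γ(F,n) ⊗ ℚ) = 0` for `n ≥ 2`, and for `n ≥ 3` the group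
   `H^{n-1}(Γ(F,n) ⊗ ℚ)` is generated by the products of the elements of `H^1(Γ(F,2) ⊗ ℚ)` with
   `Λ^{n-2} F^*`. (By the theorems of Borel and Suslin `H^1(Γ(ℚ,2) ⊗ ℚ) = K_3^ind(ℚ) ⊗ ℚ = 0`, and
   it is shown that then `H^{n-1}(Γ(ℚ,n) ⊗ ℚ) = 0`.)
2. Let `F = k(x)`, `k` algebraic over `F_p`. Then `H^1`, `H^{n-1}` and `H^n` of `Γ(F,n) ⊗ ℚ` vanish
   for all `n ≥ 2`. In particular `Γ(F,2) ⊗ ℚ` and `Γ(F,3) ⊗ ℚ` are acyclic.

The starting files have part 2 for `k` algebraically closed, in all degrees (`AcyclicRatFunc`), and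
`H^1` for all `k` as above (`DegreeOneRationalFields`).

Proof. A functional on `(B_2(F) ⊗ Λ^{n-2} F^*)_ℚ` which vanishes on the products of
`H^1(Γ(F,2) ⊗ ℚ)` is of the form `{x} ⊗ y ↦ Ψ(1 - x, x; y)`, `Ψ` alternating in the first two
variables. If it vanishes on all `{x} ⊗ x ∧ y`, then `Ψ(v, s; s, y) = 0` for all `s, v`, since the
elements `x ⊗ x ⊗ (1 - x)` span `Sym² F^* ⊗ F^* ⊗ ℚ` (`Y775.W3.span_rat`, `Y775.W3.span_poly` of the
starting files, a theorem of helpers 775, 953, 684, 261, 310, 328, 212, 117 and 43), so that `Ψ` is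
alternating in all variables, and the functional factors through the differential. The functionals
on `B_n(k(x))` and the Koszul type lemmas (`H39Gon.ev_surj`, `H39Gon.koszul_last`) are from the
starting files as well.
-/

set_option autoImplicit false

namespace Pool.Agent.Results.MP_9c6ec7_al.LastTwoDegrees

open GonP Pool.Agent.Run7.h360.GN

/-- `LastTwo F`: `H^n(Γ(F,n) ⊗ ℚ) = 0` for `n ≥ 2`, and `H^{n-1}(Γ(F,n) ⊗ ℚ)`, `n ≥ 3`, is generated by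
the products of `H^1(Γ(F,2) ⊗ ℚ)` with `Λ^{n-2} F^*`; it is `0` if `H^1(Γ(F,2) ⊗ ℚ) = 0`. -/
theorem result :
    LastTwo ℚ ∧
    ∀ (p : ℕ) [Fact p.Prime] (k : Type) [Field k] [Algebra (ZMod p) k]
      [Algebra.IsAlgebraic (ZMod p) k],
      LastTwo (RatFunc k) ∧
      ∃ D : Differentials (RatFunc k), (∀ D' : Differentials (RatFunc k), D' = D) ∧
        -- `H^1(Γ(F,n) ⊗ ℚ) = 0`, `n ≥ 3` and `n = 2`
        (∀ m, Function.Injective (D.d m 0)) ∧ Function.Injective (D.e 0) ∧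
        -- `H^{n-1}(Γ(F,n) ⊗ ℚ) = 0`, `n = j + 3`
        (∀ j, Function.Exact (D.d 0 j) (D.e (j + 1))) ∧
        -- `H^n(Γ(F,n) ⊗ ℚ) = 0`, `n = j + 2`
        (∀ j, Function.Surjective (D.e j)) :=
  ⟨lastTwo_rat, fun p _ k _ _ _ => ⟨lastTwo_fun p k, main_fun p k⟩⟩

end Pool.Agent.Results.MP_9c6ec7_al.LastTwoDegrees
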